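import Pool.Agent.helper55.ZI.Spec2

set_option autoImplicit false

namespace Pool.Agent.helper73.ZI

open Pool.Agent.ZI

universe u

theorem SEQ_step (hG2X : G2X_stmt.{u}) (R : Type u) [Ring R] (S : ℕ → Subring R) (hS : Monotone S)
    (T : Type u) [AddCommGroup T] [Module R T] (s₀ : T) (hP : Path S s₀) (k : ℕ)
    (p : {p : ℕ × (ℕ → T) // ∀ i ≤ k, p.2 i ∈ VV S s₀ p.1}) :
    ∃ p' : {p : ℕ × (ℕ → T) // ∀ i ≤ k + 1, p.2 i ∈ VV S s₀ p.1}, ∃ (hlt : p.1.1 < p'.1.1),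
      (∀ i ≤ k, p'.1.2 i = p.1.2 i) ∧
      ∃ (ι : VV S s₀ p.1.1 →ₛₗ[rinc hS hlt.le] VV S s₀ p'.1.1)
        (g : Fin (k + 1) → (VV S s₀ p.1.1 →ₛₗ[rinc hS hlt.le] VV S s₀ p'.1.1)),
        (∀ v, ((ι v : VV S s₀ p'.1.1) : T) = (v : T)) ∧ G2 ι g ∧
        ∀ y : Fin (k + 1) → VV S s₀ p.1.1, (∀ i, (y i : T) = p.1.2 i) →
          p'.1.2 (k + 1) = ((∑ i, g i (y i) : VV S s₀ p'.1.1) : T) := by
  obtain ⟨⟨m, s⟩, hp⟩ := p
  obtain ⟨m', hlt, ι, g, hι, hg⟩ := hG2X R S hS T s₀ hP m (k + 1)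
  have hmem : ∀ i : Fin (k + 1), s i ∈ VV S s₀ m := fun i => hp i (Nat.lt_succ_iff.mp i.2)
  have hup : ∀ i ≤ k, s i ∈ VV S s₀ m' := by
    intro i hi
    have h1 := hι ⟨s i, hp i hi⟩
    have h2 := (ι ⟨s i, hp i hi⟩).2
    rw [h1] at h2
    exact h2
  refine ⟨⟨(m', Function.update s (k + 1) ((∑ i, g i ⟨s i, hmem i⟩ : VV S s₀ m') : T)), ?_⟩,
    hlt, ?_, ι, g, hι, hg, ?_⟩
  · intro i hi
    rcases Nat.lt_or_ge k i with h | h
    · have hik : i = k + 1 := by omega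
      subst hik
      show Function.update s (k + 1) _ (k + 1) ∈ VV S s₀ m'
      rw [Function.update_self]
      exact (∑ i, g i ⟨s i, hmem i⟩ : VV S s₀ m').2
    · show Function.update s (k + 1) _ i ∈ VV S s₀ m'
      rw [Function.update_of_ne (by omega)]
      exact hup i h
  · intro i hi
    show Function.update s (k + 1) _ i = s i
    rw [Function.update_of_ne (by omega)]
  · intro y hy
    have hyy : y = fun i => ⟨s i, hmem i⟩ := by
      funext i
      exact Subtype.ext (hy i)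
    rw [hyy]
    exact Function.update_self _ _ _

theorem SEQ (hG2X : G2X_stmt.{u}) : SEQ_stmt.{u} := by
  intro R _ S hS T _ _ s₀ hP
  choose step hlt heq ι g hι hg hval using SEQ_step hG2X R S hS T s₀ hP
  have h0 : ∀ i ≤ 0, ((0, fun _ => s₀) : ℕ × (ℕ → T)).2 i ∈
      VV S s₀ ((0, fun _ => s₀) : ℕ × (ℕ → T)).1 := by
    intro i _
    exact Submodule.mem_span_singleton_self s₀
  let F : (k : ℕ) → {p : ℕ × (ℕ → T) // ∀ i ≤ k, p.2 i ∈ VV S s₀ p.1} :=
    fun k => Nat.rec (motive := fun k => {p : ℕ × (ℕ → T) // ∀ i ≤ k, p.2 i ∈ VV S s₀ p.1})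
      ⟨(0, fun _ => s₀), h0⟩ (fun k p => step k p) k
  have hF : ∀ k, F (k + 1) = step k (F k) := fun k => rfl
  have hs : ∀ k i, i ≤ k → (F k).1.2 i = (F i).1.2 i := by
    intro k
    induction k with
    | zero =>
      intro i hi
      have : i = 0 := by omega
      subst this
      rfl
    | succ k ih =>
      intro i hi
      rcases Nat.lt_or_ge k i with h | h
      · have hik : i = k + 1 := by omega
        subst hik
        rfl
      · rw [hF k, heq k (F k) i h]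
        exact ih i h
  refine ⟨fun k => (F k).1.1, fun k => (F k).1.2 k, rfl, ?_, rfl, ?_⟩
  · exact strictMono_nat_of_lt_succ fun k => hlt k (F k)
  · intro k
    refine ⟨?_, (hlt k (F k)).le, ι k (F k), g k (F k), hι k (F k), hg k (F k), ?_⟩
    · intro i hi
      show (F i).1.2 i ∈ VV S s₀ (F k).1.1
      rw [← hs k i hi]
      exact (F k).2 i hi
    · intro y hy
      refine hval k (F k) y ?_
      intro i
      rw [hy i]
      exact (hs k i (Nat.lt_succ_iff.mp i.2)).symm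

end Pool.Agent.helper73.ZI
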